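import Mathlib

/-!
# An injective measurable map of `(0, 2)` into `(0, 1)` with infinite approximate expansion

The map permutes and spreads binary digits: block `k` has weight `2 ^ (-(k + 2) ^ 2)` and stores the
`k`-th binary digit of `x` together with the `k` digits following position `4 (k + 2) ^ 2`.
-/

set_option autoImplicit false

open Filter Topology MeasureTheory Set

namespace Pool.Agent.Results.MP_868b62_an.ExpandingInjection

noncomputable section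

/-- The approximate lower limit of `g` at `0` from the right: the supremum (in the extended reals)
of the real `t` such that `|{h ∈ (0, r) : g h < t}| / r → 0` as `r → 0+`. -/
def apLiminf (g : ℝ → ℝ) : EReal :=
  sSup {s : EReal | ∃ t : ℝ, s = (t : EReal) ∧
    Tendsto (fun r : ℝ => volume {h : ℝ | 0 < h ∧ h < r ∧ g h < t} / ENNReal.ofReal r)
      (𝓝[>] 0) (𝓝 0)}

/-- The position where the read-ahead block `k` starts. -/
def pos (k : ℕ) : ℕ := 4 * (k + 2) ^ 2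

/-- The value of the block `k`. -/
def blk (k : ℕ) (x : ℝ) : ℤ :=
  2 ^ k * (⌊(2:ℝ) ^ k * x⌋ % 2) + ⌊(2:ℝ) ^ (pos k + k) * x⌋ % 2 ^ k

/-- The weight of the block `k`. -/
def wt (k : ℕ) : ℝ := (1 / 2) ^ ((k + 2) ^ 2)

/-- The map. -/
def phi (x : ℝ) : ℝ := 1 / 4 + ∑' k : ℕ, wt k * (blk k x : ℝ)

lemma blk_nonneg (k : ℕ) (x : ℝ) : 0 ≤ blk k x := by
  unfold blk
  have h1 : 0 ≤ ⌊(2:ℝ) ^ k * x⌋ % 2 := Int.emod_nonneg _ (by norm_num)
  have h2 : 0 ≤ ⌊(2:ℝ) ^ (pos k + k) * x⌋ % 2 ^ k := Int.emod_nonneg _ (by positivity)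
  positivity

lemma blk_le (k : ℕ) (x : ℝ) : blk k x ≤ 2 ^ (k + 1) - 1 := by
  unfold blk
  have h1 : ⌊(2:ℝ) ^ k * x⌋ % 2 < 2 := Int.emod_lt_of_pos _ (by norm_num)
  have h2 : ⌊(2:ℝ) ^ (pos k + k) * x⌋ % 2 ^ k < 2 ^ k := Int.emod_lt_of_pos _ (by positivity)
  have h3 : ⌊(2:ℝ) ^ k * x⌋ % 2 ≤ 1 := by omega
  have h4 : (0:ℤ) < 2 ^ k := by positivity
  rw [pow_succ]
  nlinarith

lemma wt_pos (k : ℕ) : 0 < wt k := by unfold wt; positivity

lemma wt_anti {j k : ℕ} (h : j ≤ k) : wt k ≤ wt j := by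
  unfold wt
  apply pow_le_pow_of_le_one (by norm_num) (by norm_num)
  exact Nat.pow_le_pow_left (by omega) 2

lemma wt_tail (j l : ℕ) : wt (l + (j + 1)) * 2 ^ (l + (j + 1) + 1) ≤ wt j * ((1 / 4) * (1 / 4) ^ l) := by
  unfold wt
  have e1 : ((1:ℝ) / 4) * (1 / 4) ^ l = (1 / 2) ^ (2 * (l + 1)) := by
    rw [← pow_succ', pow_mul]; norm_num
  rw [e1, ← pow_add]
  have hle : (j + 2) ^ 2 + 2 * (l + 1) + (l + (j + 1) + 1) ≤ (l + (j + 1) + 2) ^ 2 := by
    nlinarith [Nat.zero_le (j * l), Nat.zero_le (l * l)]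
  obtain ⟨d, hd⟩ := Nat.exists_eq_add_of_le hle
  rw [hd, pow_add, pow_add _ ((j + 2) ^ 2 + 2 * (l + 1))]
  have e2 : ((1:ℝ) / 2) ^ (l + (j + 1) + 1) * 2 ^ (l + (j + 1) + 1) = 1 := by
    rw [← mul_pow]; norm_num
  have e3 : ((1:ℝ) / 2) ^ d ≤ 1 := pow_le_one₀ (by norm_num) (by norm_num)
  have e4 : (0:ℝ) < (1 / 2) ^ ((j + 2) ^ 2 + 2 * (l + 1)) := by positivity
  calc (1 / 2 : ℝ) ^ ((j + 2) ^ 2 + 2 * (l + 1)) * (1 / 2) ^ (l + (j + 1) + 1) * (1 / 2) ^ d *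
        2 ^ (l + (j + 1) + 1)
      = (1 / 2 : ℝ) ^ ((j + 2) ^ 2 + 2 * (l + 1)) * (1 / 2) ^ d *
        ((1 / 2) ^ (l + (j + 1) + 1) * 2 ^ (l + (j + 1) + 1)) := by ring
    _ = (1 / 2 : ℝ) ^ ((j + 2) ^ 2 + 2 * (l + 1)) * (1 / 2) ^ d := by rw [e2, mul_one]
    _ ≤ _ := by nlinarith

lemma abs_blk_le (k : ℕ) (x : ℝ) : |(blk k x : ℝ)| ≤ 2 ^ (k + 1) := by
  have h1 := blk_nonneg k x
  have h2 := blk_le k x
  have h3 : (0:ℝ) ≤ blk k x := by exact_mod_cast h1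
  have h4 : (blk k x : ℝ) ≤ 2 ^ (k + 1) - 1 := by exact_mod_cast h2
  rw [abs_of_nonneg h3]
  linarith

lemma abs_sub_blk_le (k : ℕ) (x y : ℝ) : |(blk k x : ℝ) - blk k y| ≤ 2 ^ (k + 1) := by
  have h1 : (0:ℝ) ≤ blk k x := by exact_mod_cast blk_nonneg k x
  have h2 : (blk k x : ℝ) ≤ 2 ^ (k + 1) - 1 := by exact_mod_cast blk_le k x
  have h3 : (0:ℝ) ≤ blk k y := by exact_mod_cast blk_nonneg k y
  have h4 : (blk k y : ℝ) ≤ 2 ^ (k + 1) - 1 := by exact_mod_cast blk_le k y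
  rw [abs_le]
  constructor <;> linarith

lemma geo : HasSum (fun l : ℕ => ((1:ℝ) / 4) * (1 / 4) ^ l) (1 / 3) := by
  have h := (hasSum_geometric_of_lt_one (r := (1:ℝ) / 4) (by norm_num) (by norm_num)).mul_left (1 / 4)
  have e : (1:ℝ) / 4 * (1 - 1 / 4)⁻¹ = 1 / 3 := by norm_num
  rwa [e] at h

lemma summable_w : Summable fun k : ℕ => wt k * 2 ^ (k + 1) := by
  rw [← summable_nat_add_iff 1]
  refine Summable.of_nonneg_of_le (fun l => by have := wt_pos (l + 1); positivity) (fun l => ?_)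
    (geo.summable.mul_left (wt 0))
  exact wt_tail 0 l

lemma summable_blk (x : ℝ) : Summable fun k : ℕ => wt k * (blk k x : ℝ) := by
  refine Summable.of_norm_bounded summable_w fun k => ?_
  rw [norm_mul, Real.norm_eq_abs, Real.norm_eq_abs, abs_of_pos (wt_pos k)]
  exact mul_le_mul_of_nonneg_left (abs_blk_le k x) (wt_pos k).le

lemma tail_bound (j : ℕ) (c : ℕ → ℝ) (hc : ∀ k, |c k| ≤ 2 ^ (k + 1)) :
    |∑' l : ℕ, wt (l + (j + 1)) * c (l + (j + 1))| ≤ wt j / 3 := by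
  have h := tsum_of_norm_bounded (f := fun l : ℕ => wt (l + (j + 1)) * c (l + (j + 1)))
    (geo.mul_left (wt j)) (fun l => by
      rw [norm_mul, Real.norm_eq_abs, Real.norm_eq_abs, abs_of_pos (wt_pos _)]
      exact (mul_le_mul_of_nonneg_left (hc _) (wt_pos _).le).trans (wt_tail j l))
  rw [Real.norm_eq_abs] at h
  refine h.trans (le_of_eq ?_)
  ring

lemma phi_mem (x : ℝ) : 0 < phi x ∧ phi x < 1 := by
  have h0 : 0 ≤ ∑' k : ℕ, wt k * (blk k x : ℝ) := tsum_nonneg fun k =>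
    mul_nonneg (wt_pos k).le (by exact_mod_cast blk_nonneg k x)
  have h1 : ∑' k : ℕ, wt k * (blk k x : ℝ) ≤ 1 / 2 := by
    rw [← (summable_blk x).sum_add_tsum_nat_add 1, Finset.sum_range_one]
    have h2 := tail_bound 0 (fun k => (blk k x : ℝ)) (fun k => abs_blk_le k x)
    have h3 := le_abs_self (∑' l : ℕ, wt (l + (0 + 1)) * (blk (l + (0 + 1)) x : ℝ))
    have h4 : wt 0 = 1 / 16 := by unfold wt; norm_num
    have h5 := le_abs_self (blk 0 x : ℝ)
    have h6 := abs_blk_le 0 x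
    rw [h4] at h2 ⊢
    simp only [zero_add] at h2 h3 h6 ⊢
    norm_num at h6
    linarith
  unfold phi
  constructor <;> linarith

/-- the first differing block dominates -/
lemma phi_sub {x y : ℝ} {k : ℕ} (h : blk k x ≠ blk k y) : wt k / 2 ≤ |phi x - phi y| := by
  classical
  set p : ℕ → Prop := fun k => blk k x ≠ blk k y
  have hex : ∃ k, p k := ⟨k, h⟩
  set j := Nat.find hex with hj
  have hjk : j ≤ k := Nat.find_min' hex h
  have hpj : blk j x ≠ blk j y := Nat.find_spec hex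
  have hlt : ∀ i < j, blk i x = blk i y := by
    intro i hi
    by_contra hcon
    exact Nat.find_min hex hi hcon
  have e1 : phi x - phi y = ∑' k : ℕ, wt k * ((blk k x : ℝ) - blk k y) := by
    unfold phi
    rw [add_sub_add_left_eq_sub, ← (summable_blk x).tsum_sub (summable_blk y)]
    exact tsum_congr fun k => by ring
  have hs : Summable fun k : ℕ => wt k * ((blk k x : ℝ) - blk k y) := by
    have := (summable_blk x).sub (summable_blk y)
    exact this.congr fun k => by ring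
  rw [e1, ← hs.sum_add_tsum_nat_add (j + 1), Finset.sum_range_succ]
  have e2 : ∑ i ∈ Finset.range j, wt i * ((blk i x : ℝ) - blk i y) = 0 := by
    refine Finset.sum_eq_zero fun i hi => ?_
    rw [hlt i (Finset.mem_range.mp hi), sub_self, mul_zero]
  rw [e2, zero_add]
  have e3 := tail_bound j (fun k => (blk k x : ℝ) - blk k y) (fun k => abs_sub_blk_le k x y)
  have e4 : (1:ℝ) ≤ |(blk j x : ℝ) - blk j y| := by
    have h1 := Int.one_le_abs (sub_ne_zero.mpr hpj)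
    have h2 : ((1:ℤ):ℝ) ≤ ((|blk j x - blk j y| : ℤ) : ℝ) := by exact_mod_cast h1
    simpa using h2
  have e5 : wt j ≤ |wt j * ((blk j x : ℝ) - blk j y)| := by
    rw [abs_mul, abs_of_pos (wt_pos j)]
    have := wt_pos j
    nlinarith
  have e6 := wt_anti hjk
  have e7 := wt_pos j
  set a := wt j * ((blk j x : ℝ) - blk j y)
  set b := ∑' l : ℕ, wt (l + (j + 1)) * ((blk (l + (j + 1)) x : ℝ) - blk (l + (j + 1)) y)
  have e8 : |a| ≤ |a + b| + |b| := by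
    have := abs_sub (a + b) b
    rwa [add_sub_cancel_right] at this
  have e9 : |b| ≤ wt j / 3 := e3
  linarith

lemma floor_two_mul (z : ℝ) : ⌊2 * z⌋ = 2 * ⌊z⌋ + ⌊2 * z⌋ % 2 := by
  have h1 : (⌊z⌋ : ℝ) ≤ z := Int.floor_le z
  have h2 : z < ⌊z⌋ + 1 := Int.lt_floor_add_one z
  have h3 : 2 * ⌊z⌋ ≤ ⌊2 * z⌋ := by
    rw [Int.le_floor]; push_cast; linarith
  have h4 : ⌊2 * z⌋ < 2 * ⌊z⌋ + 2 := by
    rw [Int.floor_lt]; push_cast; linarith
  omega

lemma blk_digit {k : ℕ} {x y : ℝ} (h : blk k x = blk k y) :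
    ⌊(2:ℝ) ^ k * x⌋ % 2 = ⌊(2:ℝ) ^ k * y⌋ % 2 := by
  unfold blk at h
  have a1 : 0 ≤ ⌊(2:ℝ) ^ (pos k + k) * x⌋ % 2 ^ k := Int.emod_nonneg _ (by positivity)
  have a2 : ⌊(2:ℝ) ^ (pos k + k) * x⌋ % 2 ^ k < 2 ^ k := Int.emod_lt_of_pos _ (by positivity)
  have b1 : 0 ≤ ⌊(2:ℝ) ^ (pos k + k) * y⌋ % 2 ^ k := Int.emod_nonneg _ (by positivity)
  have b2 : ⌊(2:ℝ) ^ (pos k + k) * y⌋ % 2 ^ k < 2 ^ k := Int.emod_lt_of_pos _ (by positivity)
  set A := ⌊(2:ℝ) ^ k * x⌋ % 2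
  set B := ⌊(2:ℝ) ^ k * y⌋ % 2
  set M : ℤ := 2 ^ k
  by_contra hne
  have h1 : M * (A - B) = ⌊(2:ℝ) ^ (pos k + k) * y⌋ % M - ⌊(2:ℝ) ^ (pos k + k) * x⌋ % M := by
    linarith
  have hM : 0 < M := by positivity
  rcases lt_or_gt_of_ne hne with hlt | hgt
  · have : A - B ≤ -1 := by omega
    nlinarith
  · have : 1 ≤ A - B := by omega
    nlinarith

lemma phi_injOn : InjOn phi (Ioo 0 2) := by
  intro x hx y hy hxy
  have hblk : ∀ k, blk k x = blk k y := by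
    intro k
    by_contra hne
    have h1 := phi_sub hne
    rw [hxy, sub_self, abs_zero] at h1
    linarith [wt_pos k]
  have hfl : ∀ k : ℕ, ⌊(2:ℝ) ^ k * x⌋ = ⌊(2:ℝ) ^ k * y⌋ := by
    intro k
    induction k with
    | zero =>
      have h1 := blk_digit (hblk 0)
      simp only [pow_zero, one_mul] at h1 ⊢
      have a1 : 0 ≤ ⌊x⌋ := Int.floor_nonneg.mpr hx.1.le
      have a2 : ⌊x⌋ < 2 := Int.floor_lt.mpr (by exact_mod_cast hx.2)
      have b1 : 0 ≤ ⌊y⌋ := Int.floor_nonneg.mpr hy.1.le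
      have b2 : ⌊y⌋ < 2 := Int.floor_lt.mpr (by exact_mod_cast hy.2)
      omega
    | succ k ih =>
      have h1 := blk_digit (hblk (k + 1))
      have e1 : (2:ℝ) ^ (k + 1) * x = 2 * (2 ^ k * x) := by rw [pow_succ]; ring
      have e2 : (2:ℝ) ^ (k + 1) * y = 2 * (2 ^ k * y) := by rw [pow_succ]; ring
      rw [e1, e2] at h1 ⊢
      rw [floor_two_mul (2 ^ k * x), floor_two_mul (2 ^ k * y), ih, h1]
  by_contra hne
  have hd : 0 < |x - y| := abs_pos.mpr (sub_ne_zero.mpr hne)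
  obtain ⟨k, hk⟩ := exists_pow_lt_of_lt_one hd (show (1:ℝ) / 2 < 1 by norm_num)
  have h1 := Int.abs_sub_lt_one_of_floor_eq_floor (hfl k)
  rw [← mul_sub, abs_mul, abs_of_pos (by positivity : (0:ℝ) < 2 ^ k)] at h1
  have h2 : (2:ℝ) ^ k * (1 / 2) ^ k = 1 := by rw [← mul_pow]; norm_num
  have h3 : (0:ℝ) < 2 ^ k := by positivity
  have h4 := mul_lt_mul_of_pos_left hk h3
  linarith

lemma phi_measurable : Measurable phi := by
  unfold phi
  refine Measurable.const_add ?_ _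
  refine Measurable.tsum fun k => ?_
  refine Measurable.const_mul ?_ _
  unfold blk
  have h1 : Measurable fun x : ℝ => ⌊(2:ℝ) ^ k * x⌋ := Int.measurable_floor.comp (by fun_prop)
  have h2 : Measurable fun x : ℝ => ⌊(2:ℝ) ^ (pos k + k) * x⌋ := Int.measurable_floor.comp (by fun_prop)
  have h3 : Measurable fun x : ℝ => (2:ℤ) ^ k * (⌊(2:ℝ) ^ k * x⌋ % 2) +
      ⌊(2:ℝ) ^ (pos k + k) * x⌋ % 2 ^ k :=
    ((measurable_from_top (f := fun z : ℤ => (2:ℤ) ^ k * (z % 2))).comp h1).add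
      ((measurable_from_top (f := fun z : ℤ => z % (2:ℤ) ^ k)).comp h2)
  exact (measurable_from_top (f := fun z : ℤ => (z : ℝ))).comp h3

/-- measure of the bad set -/
lemma bad_measure (x : ℝ) {k m : ℕ} (hk : 1 ≤ k) (hm : m ≤ pos k) :
    volume {h : ℝ | 0 < h ∧ h < (1 / 2) ^ m ∧ blk k (x + h) = blk k x} ≤
      ENNReal.ofReal (2 * (1 / 2) ^ (m + k)) := by
  set n := pos k + k with hn
  set a := ⌊(2:ℝ) ^ n * x⌋ with ha
  set N := 2 ^ (pos k - m) with hN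
  have hsub : {h : ℝ | 0 < h ∧ h < (1 / 2) ^ m ∧ blk k (x + h) = blk k x} ⊆
      ⋃ q ∈ Finset.range (N + 1), Ico (((a + 2 ^ k * (q:ℤ) : ℤ) : ℝ) / 2 ^ n - x)
        (((a + 2 ^ k * (q:ℤ) : ℤ) + 1 : ℝ) / 2 ^ n - x) := by
    rintro h ⟨h0, h1, h2⟩
    set z := ⌊(2:ℝ) ^ n * (x + h)⌋ with hz
    have hpow : (0:ℝ) < 2 ^ n := by positivity
    have hdig := blk_digit h2
    have hmod : z % 2 ^ k = a % 2 ^ k := by
      have h3 := h2
      unfold blk at h3
      rw [hdig] at h3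
      exact add_left_cancel h3
    have haz : a ≤ z := by
      apply Int.floor_le_floor
      nlinarith
    -- z ≤ a + 2^(n-m) + 1
    have hnm : m ≤ n := by omega
    have hz2 : z ≤ a + 2 ^ (n - m) := by
      have h3 : (2:ℝ) ^ n * h < 2 ^ (n - m) := by
        have h4 : (2:ℝ) ^ n * (1 / 2) ^ m = 2 ^ (n - m) := by
          have : (2:ℝ) ^ n = 2 ^ (n - m) * 2 ^ m := by rw [← pow_add]; congr 1; omega
          rw [this, mul_assoc, ← mul_pow]; norm_num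
        rw [← h4]
        exact mul_lt_mul_of_pos_left h1 hpow
      have h5 : (2:ℝ) ^ n * x < a + 1 := Int.lt_floor_add_one _
      have h6 : z < a + 2 ^ (n - m) + 1 := by
        rw [hz, Int.floor_lt]
        push_cast
        nlinarith
      omega
    obtain ⟨c, hc⟩ : ((2:ℤ) ^ k) ∣ (z - a) := by
      exact Int.dvd_of_emod_eq_zero (by rw [Int.sub_emod, hmod, sub_self, Int.zero_emod])
    have hkpos : (0:ℤ) < 2 ^ k := by positivity
    have hc0 : 0 ≤ c := by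
      have : 0 ≤ 2 ^ k * c := by rw [← hc]; omega
      exact nonneg_of_mul_nonneg_right this hkpos
    have hcN : c ≤ N := by
      have h3 : 2 ^ k * c ≤ 2 ^ (n - m) := by rw [← hc]; linarith
      have h4 : (2:ℤ) ^ (n - m) = 2 ^ k * 2 ^ (pos k - m) := by
        rw [← pow_add]; congr 1; omega
      rw [h4] at h3
      have h5 := le_of_mul_le_mul_left h3 hkpos
      rw [hN]; exact_mod_cast h5
    have hzc : z = a + 2 ^ k * c := by linarith
    rw [mem_iUnion₂]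
    refine ⟨c.toNat, ?_, ?_⟩
    · rw [Finset.mem_range]
      omega
    · rw [Int.toNat_of_nonneg hc0, ← hzc]
      have h3 : (z:ℝ) ≤ 2 ^ n * (x + h) := Int.floor_le _
      have h4 : (2:ℝ) ^ n * (x + h) < z + 1 := Int.lt_floor_add_one _
      constructor
      · rw [sub_le_iff_le_add, div_le_iff₀ hpow]; linarith
      · rw [lt_sub_iff_add_lt, lt_div_iff₀ hpow]; linarith
  refine (measure_mono hsub).trans ?_
  refine (measure_biUnion_finset_le _ _).trans ?_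
  have hvol : ∀ q ∈ Finset.range (N + 1), volume (Ico (((a + 2 ^ k * (q:ℤ) : ℤ) : ℝ) / 2 ^ n - x)
        (((a + 2 ^ k * (q:ℤ) : ℤ) + 1 : ℝ) / 2 ^ n - x)) = ENNReal.ofReal ((1 / 2) ^ n) := by
    intro q _
    rw [Real.volume_Ico]
    congr 1
    rw [one_div_pow]
    ring
  rw [Finset.sum_congr rfl hvol, Finset.sum_const, Finset.card_range, nsmul_eq_mul,
    ← ENNReal.ofReal_natCast, ← ENNReal.ofReal_mul (by positivity)]
  apply ENNReal.ofReal_le_ofReal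
  have h1 : (N:ℝ) = 2 ^ (pos k - m) := by rw [hN]; push_cast; rfl
  have h2 : (1:ℝ) ≤ 2 ^ (pos k - m) := one_le_pow₀ (by norm_num)
  have h3 : ((N + 1 : ℕ) : ℝ) ≤ 2 * 2 ^ (pos k - m) := by push_cast; rw [h1]; linarith
  have h4 : (2:ℝ) ^ (pos k - m) * (1 / 2) ^ n = (1 / 2) ^ (m + k) := by
    have : n = (pos k - m) + (m + k) := by omega
    rw [this, pow_add, ← mul_assoc, ← mul_pow]; norm_num
  calc ((N + 1 : ℕ) : ℝ) * (1 / 2) ^ n ≤ (2 * 2 ^ (pos k - m)) * (1 / 2) ^ n := by gcongr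
    _ = 2 * ((2:ℝ) ^ (pos k - m) * (1 / 2) ^ n) := by ring
    _ = _ := by rw [h4]

lemma ap_limit (x t : ℝ) :
    Tendsto (fun r : ℝ => volume {h : ℝ | 0 < h ∧ h < r ∧ |(phi (x + h) - phi x) / h| < t} /
      ENNReal.ofReal r) (𝓝[>] 0) (𝓝 0) := by
  rw [ENNReal.tendsto_nhds_zero]
  intro ε hε
  -- choose K
  obtain ⟨K, hK1, hK2, hK3⟩ : ∃ K : ℕ, 1 ≤ K ∧ ENNReal.ofReal (4 * (1 / 2) ^ K) ≤ ε ∧
      t ≤ 2 ^ K := by
    have h1 : Tendsto (fun K : ℕ => ENNReal.ofReal (4 * (1 / 2) ^ K)) atTop (𝓝 0) := by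
      have := (tendsto_pow_atTop_nhds_zero_of_lt_one (r := (1:ℝ)/2) (by norm_num)
        (by norm_num)).const_mul 4
      have h2 := ENNReal.tendsto_ofReal this
      simpa using h2
    have h2 := h1.eventually (ge_mem_nhds hε)
    have h3 : Tendsto (fun K : ℕ => (2:ℝ) ^ K) atTop atTop :=
      tendsto_pow_atTop_atTop_of_one_lt (by norm_num)
    have h4 := h3.eventually_ge_atTop t
    obtain ⟨K, ⟨hKa, hKb⟩, hKc⟩ := ((h2.and h4).and (eventually_ge_atTop 1)).exists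
    exact ⟨K, hKc, hKa, hKb⟩
  have hδ : (0:ℝ) < (1 / 2) ^ (2 * (K + 2) ^ 2) := by positivity
  filter_upwards [Ioo_mem_nhdsGT hδ] with r hr
  have hr1 : r ≤ 1 := hr.2.le.trans (pow_le_one₀ (by norm_num) (by norm_num))
  obtain ⟨m, hm1, hm2⟩ := exists_nat_pow_near_of_lt_one hr.1 hr1 (show (0:ℝ) < 1 / 2 by norm_num)
    (by norm_num)
  have hmK : 2 * (K + 2) ^ 2 ≤ m := by
    have h1 := hm1.trans hr.2
    have h2 := (pow_lt_pow_iff_right_of_lt_one₀ (show (0:ℝ) < 1 / 2 by norm_num)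
      (by norm_num)).mp h1
    omega
  set q := Nat.sqrt (m / 2) with hq
  have hq1 : q ^ 2 ≤ m / 2 := by rw [sq]; exact Nat.sqrt_le (m / 2)
  have hq2 : m / 2 < (q + 1) ^ 2 := by rw [sq]; exact Nat.lt_succ_sqrt (m / 2)
  have hqK : K + 2 ≤ q := by
    rw [hq, Nat.le_sqrt, ← sq]
    omega
  obtain ⟨k, hk⟩ : ∃ k, q = k + 2 := ⟨q - 2, by omega⟩
  have hkK : K ≤ k := by omega
  have hk1 : 1 ≤ k := by omega
  have hmk : 2 * (k + 2) ^ 2 ≤ m := by rw [← hk]; omega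
  have hmk2 : m ≤ pos k := by
    unfold pos
    have : m < 2 * (k + 2 + 1) ^ 2 := by rw [← hk]; omega
    nlinarith
  have hsub : {h : ℝ | 0 < h ∧ h < r ∧ |(phi (x + h) - phi x) / h| < t} ⊆
      {h : ℝ | 0 < h ∧ h < (1 / 2) ^ m ∧ blk k (x + h) = blk k x} := by
    rintro h ⟨h0, h1, h2⟩
    refine ⟨h0, lt_of_lt_of_le h1 hm2, ?_⟩
    by_contra hne
    have h3 := phi_sub hne
    rw [abs_div, abs_of_pos h0, div_lt_iff₀ h0] at h2
    have h4 : t * h ≤ 2 ^ K * (1 / 2) ^ m := by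
      have : h ≤ (1 / 2) ^ m := (lt_of_lt_of_le h1 hm2).le
      calc t * h ≤ 2 ^ K * h := by gcongr
        _ ≤ _ := by gcongr
    -- 2^K (1/2)^m ≤ wt k / 2
    have h5 : (2:ℝ) ^ K * (1 / 2) ^ m ≤ wt k / 2 := by
      have h6 : K + (k + 2) ^ 2 + 1 ≤ m := by nlinarith
      obtain ⟨d, hd⟩ := Nat.exists_eq_add_of_le h6
      rw [hd, pow_add, pow_add, pow_add]
      have h7 : (2:ℝ) ^ K * (1 / 2) ^ K = 1 := by rw [← mul_pow]; norm_num
      have h8 : ((1:ℝ) / 2) ^ d ≤ 1 := pow_le_one₀ (by norm_num) (by norm_num)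
      have h9 : (0:ℝ) < (1 / 2) ^ ((k + 2) ^ 2) := by positivity
      unfold wt
      calc (2:ℝ) ^ K * ((1 / 2) ^ K * (1 / 2) ^ ((k + 2) ^ 2) * (1 / 2) ^ 1 * (1 / 2) ^ d)
          = ((2:ℝ) ^ K * (1 / 2) ^ K) * ((1 / 2) ^ ((k + 2) ^ 2) / 2) * (1 / 2) ^ d := by ring
        _ = ((1 / 2) ^ ((k + 2) ^ 2) / 2) * (1 / 2) ^ d := by rw [h7, one_mul]
        _ ≤ _ := by nlinarith
    linarith
  have hmeas := (measure_mono hsub).trans (bad_measure x hk1 hmk2)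
  calc volume {h : ℝ | 0 < h ∧ h < r ∧ |(phi (x + h) - phi x) / h| < t} / ENNReal.ofReal r
      ≤ ENNReal.ofReal (2 * (1 / 2) ^ (m + k)) / ENNReal.ofReal ((1 / 2) ^ (m + 1)) :=
        ENNReal.div_le_div hmeas (ENNReal.ofReal_le_ofReal hm1.le)
    _ = ENNReal.ofReal (4 * (1 / 2) ^ k) := by
        rw [← ENNReal.ofReal_div_of_pos (by positivity)]
        congr 1
        rw [pow_add, pow_add]
        field_simp
        norm_num
    _ ≤ ENNReal.ofReal (4 * (1 / 2) ^ K) := by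
        apply ENNReal.ofReal_le_ofReal
        have : ((1:ℝ) / 2) ^ k ≤ (1 / 2) ^ K := pow_le_pow_of_le_one (by norm_num) (by norm_num) hkK
        linarith
    _ ≤ ε := hK2

/-- **Such a map exists.** There is an injective measurable map of `(0, 2)` into `(0, 1)` whose
absolute difference quotient has approximate lower limit `+∞` (hence approximate limit `+∞`) from
the right at every point of `(0, 2)`. -/
theorem result : ∃ φ : ℝ → ℝ, Measurable φ ∧ MapsTo φ (Ioo 0 2) (Ioo 0 1) ∧ InjOn φ (Ioo 0 2) ∧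
    ∀ x ∈ Ioo (0:ℝ) 2, apLiminf (fun h => |(φ (x + h) - φ x) / h|) = ⊤ := by
  refine ⟨phi, phi_measurable, fun x _ => phi_mem x, phi_injOn, fun x _ => ?_⟩
  rw [EReal.eq_top_iff_forall_lt]
  intro y
  have h1 : ((y + 1 : ℝ) : EReal) ≤ apLiminf (fun h => |(phi (x + h) - phi x) / h|) :=
    le_sSup ⟨y + 1, rfl, ap_limit x (y + 1)⟩
  exact lt_of_lt_of_le (EReal.coe_lt_coe_iff.mpr (by linarith)) h1

end

end Pool.Agent.Results.MP_868b62_an.ExpandingInjection
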